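import Pool.Agent.W524.OS.NF

/-! The final form of the one-sided theorems. -/

set_option autoImplicit false

namespace Pool.Agent.W524.OS

open MeasureTheory Filter Topology Set
open Pool.Agent.W263.BSD

variable {P : ℝ → ℝ} {F : ℂ → ℂ} {a : ℝ → ℝ} {G : ℂ → ℂ} {B : ℝ}

theorem BS.upper' (D : BS P F a G B) (hFd : Differentiable ℂ F) {r : ℕ}
    (hr : analyticOrderAt F 1 = r) :
    ∃ c : ℝ, 0 < c ∧ ∃ᶠ x : ℝ in atTop, c * (Real.log x) ^ r < P x := by
  obtain ⟨M, hM⟩ := D.upper hFd hr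
  refine ⟨Real.exp (-M), Real.exp_pos _, ?_⟩
  refine (hM.and_eventually (eventually_gt_atTop 1)).mono fun x hx => ?_
  obtain ⟨h1, h2⟩ := hx
  have hl : 0 < Real.log x := Real.log_pos h2
  have h3 : Real.exp (r * Real.log (Real.log x) - M) < P x := by
    rw [← Real.exp_log (D.pos x)]
    exact Real.exp_lt_exp.mpr h1
  refine lt_of_eq_of_lt ?_ h3
  rw [sub_eq_neg_add, Real.exp_add]
  congr 1
  rw [mul_comm, Real.exp_mul, Real.exp_log hl, Real.rpow_natCast]

theorem BS.lower' (D : BS P F a G B) (hFd : Differentiable ℂ F) {r : ℕ}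
    (hr : analyticOrderAt F 1 = r) (hne : ∀ s : ℝ, 1 < s → F s ≠ 0) :
    ∃ C : ℝ, ∃ᶠ x : ℝ in atTop, P x < C * (Real.log x) ^ r := by
  obtain ⟨M, hM⟩ := D.lower hFd hr hne
  refine ⟨Real.exp M, ?_⟩
  refine (hM.and_eventually (eventually_gt_atTop 1)).mono fun x hx => ?_
  obtain ⟨h1, h2⟩ := hx
  have hl : 0 < Real.log x := Real.log_pos h2
  have h3 : P x < Real.exp (r * Real.log (Real.log x) + M) := by
    rw [← Real.exp_log (D.pos x)]
    exact Real.exp_lt_exp.mpr h1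
  refine lt_of_lt_of_eq h3 ?_
  rw [add_comm, Real.exp_add]
  congr 1
  rw [mul_comm, Real.exp_mul, Real.exp_log hl, Real.rpow_natCast]

/-- A power of `log x` which dominates `P` has exponent at least the order. -/
theorem BS.order_le (D : BS P F a G B) (hFd : Differentiable ℂ F) {r : ℕ}
    (hr : analyticOrderAt F 1 = r) {κ C : ℝ}
    (h : ∀ᶠ x : ℝ in atTop, P x ≤ C * (Real.log x) ^ κ) : (r : ℝ) ≤ κ := by
  by_contra hlt
  push Not at hlt
  obtain ⟨c, hc, hfr⟩ := D.upper' hFd hr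
  have h3 : Tendsto (fun x : ℝ => (Real.log x) ^ ((r : ℝ) - κ)) atTop atTop :=
    (tendsto_rpow_atTop (by linarith)).comp Real.tendsto_log_atTop
  obtain ⟨x, hx1, hx2, hx3, hx4⟩ := (hfr.and_eventually (h.and ((h3.eventually_gt_atTop
    (C / c)).and (eventually_gt_atTop (Real.exp 0))))).exists
  have hx0 : 0 < x := lt_trans (Real.exp_pos 0) hx4
  have hl : 0 < Real.log x := (Real.lt_log_iff_exp_lt hx0).mpr hx4
  have h4 : (Real.log x) ^ r = (Real.log x) ^ ((r : ℝ) - κ) * (Real.log x) ^ κ := by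
    rw [← Real.rpow_add hl, sub_add_cancel, Real.rpow_natCast]
  have h5 : c * (Real.log x) ^ r ≤ C * (Real.log x) ^ κ := (hx1.trans_le hx2).le
  rw [h4] at h5
  have h6 : 0 < (Real.log x) ^ κ := Real.rpow_pos_of_pos hl κ
  have h7 : C < c * (Real.log x) ^ ((r : ℝ) - κ) := by
    rw [div_lt_iff₀ hc] at hx3
    linarith
  nlinarith [mul_lt_mul_of_pos_right h7 h6]

/-- two exact orders coincide -/
theorem le_of_orders {P : ℝ → ℝ} {m n : ℕ} {c C : ℝ} (hc : 0 < c)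
    (h1 : ∀ᶠ x : ℝ in atTop, c * (Real.log x) ^ m ≤ P x)
    (h2 : ∀ᶠ x : ℝ in atTop, P x ≤ C * (Real.log x) ^ n) : m ≤ n := by
  by_contra hlt
  push Not at hlt
  have h3 : Tendsto (fun x : ℝ => (Real.log x) ^ (m - n)) atTop atTop :=
    (tendsto_pow_atTop (by omega)).comp Real.tendsto_log_atTop
  obtain ⟨x, hx1, hx2, hx3, hx4⟩ := (h1.and (h2.and ((h3.eventually_gt_atTop (C / c)).and
    (eventually_gt_atTop (Real.exp 0))))).exists
  have hx0 : 0 < x := lt_trans (Real.exp_pos 0) hx4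
  have hl : 0 < Real.log x := (Real.lt_log_iff_exp_lt hx0).mpr hx4
  have h4 : (Real.log x) ^ m = (Real.log x) ^ (m - n) * (Real.log x) ^ n := by
    rw [← pow_add]
    congr 1
    omega
  have h5 : c * (Real.log x) ^ m ≤ C * (Real.log x) ^ n := hx1.trans hx2
  rw [h4] at h5
  have h6 : 0 < (Real.log x) ^ n := pow_pos hl n
  have h7 : C < c * (Real.log x) ^ (m - n) := by
    rw [div_lt_iff₀ hc] at hx3
    linarith
  nlinarith [mul_lt_mul_of_pos_right h7 h6]

/-- The doubling half. -/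
theorem BS.doubling_rank (D : BS P F a G B) (hFd : Differentiable ℂ F) {r : ℕ}
    (hr : analyticOrderAt F 1 = r) (m : ℕ)
    (hK : ∃ K : ℝ, ∀ᶠ x : ℝ in atTop, ∀ y, x ≤ y → y ≤ x ^ 2 → P y ≤ K * P x) :
    (∀ s : ℂ, 1 < s.re → F s ≠ 0) ∧
    (r = m ↔ ∃ c C : ℝ, 0 < c ∧ ∀ᶠ x : ℝ in atTop, c * (Real.log x) ^ m ≤ P x ∧
        P x ≤ C * (Real.log x) ^ m) := by
  have h1 := ((D.order_tfae hFd hr).out 1 0).mp hK
  refine ⟨?_, ?_⟩
  · obtain ⟨c, C, hc, h⟩ := h1
    exact fun s hs => D.no_zeros_of_order (h.mono fun x hx => hx.2) hs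
  constructor
  · rintro rfl
    exact h1
  · rintro ⟨c', C', hc', h2⟩
    obtain ⟨c, C, hc, h⟩ := h1
    have h3 : r ≤ m := le_of_orders hc (h.mono fun x hx => hx.1) (h2.mono fun x hx => hx.2)
    have h4 : m ≤ r := le_of_orders hc' (h2.mono fun x hx => hx.1) (h.mono fun x hx => hx.2)
    exact le_antisymm h3 h4

/-- The upper bound half. -/
theorem BS.upper_rank (D : BS P F a G B) (hFd : Differentiable ℂ F) {r : ℕ}
    (hr : analyticOrderAt F 1 = r) (m : ℕ) {κ C : ℝ}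
    (h : ∀ᶠ x : ℝ in atTop, P x ≤ C * (Real.log x) ^ κ) :
    (∀ s : ℂ, 1 < s.re → F s ≠ 0) ∧ (r : ℝ) ≤ κ ∧
    Tendsto (fun x : ℝ => logMean P x / Real.log (Real.log x)) atTop (𝓝 r) ∧
    (r = m ↔ Tendsto (fun x : ℝ => logMean P x / Real.log (Real.log x)) atTop (𝓝 m)) := by
  have h0 := D.loglog_of_pow h
  have h1 := D.mean hFd hr h0
  refine ⟨fun s hs => D.no_zeros_of_loglog h0 hs, D.order_le hFd hr h, h1, ?_⟩
  constructor
  · rintro rfl
    exact h1
  · intro h2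
    exact_mod_cast tendsto_nhds_unique h1 h2

end Pool.Agent.W524.OS
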