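import Pool.Agent.W334.BSD.NF
import Pool.Agent.W263.BSD.Order
import Pool.Agent.W263.BSD.Main

/-! From an Euler product written as `exp (q ∫ f e^{-qt} dt)` to the data of the one-sided theory. -/

set_option autoImplicit false

namespace Pool.Agent.W524.OS

open MeasureTheory Filter Topology Set
open Pool.Agent.W263.BSD
open Pool.Agent.W334.BSD (Tame)

/-- the part of `f` below `U` -/
noncomputable def lowPart (f : ℝ → ℝ) (U : ℝ) (u : ℝ) : ℝ := if u < U then f u else 0
/-- minus the part of `f` above `U` -/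
noncomputable def hiPart (f : ℝ → ℝ) (U : ℝ) (u : ℝ) : ℝ := if U ≤ u then -f u else 0

theorem lowPart_meas {f : ℝ → ℝ} (hf : Measurable f) (U : ℝ) : Measurable (lowPart f U) :=
  Measurable.ite measurableSet_Iio hf measurable_const

theorem hiPart_meas {f : ℝ → ℝ} (hf : Measurable f) (U : ℝ) : Measurable (hiPart f U) :=
  Measurable.ite measurableSet_Ici hf.neg measurable_const

theorem hiPart_bound {f : ℝ → ℝ} {C U : ℝ} (hf : Tame f C) (hU : 0 < U)
    (hUC : ∀ u, U ≤ u → C * Real.exp u ≤ Real.exp (2 * u)) (u : ℝ) :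
    |hiPart f U u| ≤ Real.exp (2 * u) := by
  unfold hiPart
  split_ifs with h
  · rw [abs_neg]
    exact (hf.bound u (by linarith)).trans (hUC u h)
  · rw [abs_zero]; exact (Real.exp_pos _).le

theorem hiPart_LInt {f : ℝ → ℝ} {C U : ℝ} (hf : Tame f C) (hU : 0 < U)
    (hUC : ∀ u, U ≤ u → C * Real.exp u ≤ Real.exp (2 * u)) {w : ℝ} (hw : 2 < w) :
    LInt (hiPart f U) w :=
  LInt.of_bound (hiPart_meas hf.meas U) (ex_LInt hw) fun u _ => hiPart_bound hf hU hUC u

theorem lowPart_LInt {f : ℝ → ℝ} {C U : ℝ} (hf : Tame f C) {w : ℝ} (hw : -1 < w) :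
    LInt (lowPart f U) w := by
  refine LInt.of_bound (lowPart_meas hf.meas U)
    ((ex_LInt hw).const_mul (C * Real.exp (2 * U))) fun u hu => ?_
  have hC : 0 ≤ C := hf.C_nonneg
  unfold lowPart ex
  split_ifs with h
  · refine (hf.bound u hu).trans ?_
    rw [mul_assoc, ← Real.exp_add]
    refine mul_le_mul_of_nonneg_left (Real.exp_le_exp.mpr ?_) hC
    linarith
  · rw [abs_zero]; positivity

theorem integrableC {f : ℝ → ℝ} (hf : Measurable f) {z : ℂ} (h : LInt f z.re) :
    IntegrableOn (fun u : ℝ => (f u : ℂ) * Complex.exp (-(z * u))) (Ioi 0) := by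
  unfold LInt at h
  refine Integrable.mono' h.norm ?_ ?_
  · refine AEStronglyMeasurable.mul ?_ ?_
    · exact (Complex.measurable_ofReal.comp hf).aestronglyMeasurable
    · exact Continuous.aestronglyMeasurable (by fun_prop)
  · refine Eventually.of_forall fun u => ?_
    rw [norm_mul, Complex.norm_real, Complex.norm_exp, norm_mul, Real.norm_eq_abs,
      Real.norm_eq_abs, Real.abs_exp]
    refine le_of_eq ?_
    congr 2
    simp

theorem LT_split {f : ℝ → ℝ} {C U : ℝ} (hf : Tame f C) (hU : 0 < U)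
    (hUC : ∀ u, U ≤ u → C * Real.exp u ≤ Real.exp (2 * u)) {z : ℂ} (hz : 2 < z.re) :
    Pool.Agent.W334.BSD.LT f z = lapC (lowPart f U) z - lapC (hiPart f U) z := by
  unfold Pool.Agent.W334.BSD.LT lapC
  rw [← integral_sub (integrableC (lowPart_meas hf.meas U) (lowPart_LInt hf (by linarith)))
    (integrableC (hiPart_meas hf.meas U) (hiPart_LInt hf hU hUC hz))]
  refine setIntegral_congr_fun measurableSet_Ioi fun u hu => ?_
  simp only [lowPart, hiPart]
  rcases lt_or_ge u U with h | h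
  · rw [if_pos h, if_neg (not_le.mpr h)]
    push_cast; ring
  · rw [if_neg (not_lt.mpr h), if_pos h]
    push_cast; ring

theorem data_of {f : ℝ → ℝ} {C U : ℝ} (hf : Tame f C) (hU : 0 < U)
    (hUC : ∀ u, U ≤ u → C * Real.exp u ≤ Real.exp (2 * u)) {Φ : ℂ → ℂ} (hΦ : Differentiable ℂ Φ)
    (h : ∀ q : ℂ, 2 < q.re → Φ q = Complex.exp (q * Pool.Agent.W334.BSD.LT f q)) :
    Data 1 (hiPart f U) Φ (fun w => w * lapC (lowPart f U) w) 2 where
  meas := hiPart_meas hf.meas U
  c0_nonneg := zero_le_two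
  int := fun w hw => hiPart_LInt hf hU hUC hw
  hΦ := hΦ
  hG := fun z hz => differentiableAt_id.mul
    (lapC_differentiableAt (lowPart_meas hf.meas U) (w0 := -1)
      (fun w hw => lowPart_LInt hf hw) (by linarith))
  hGre := fun w hw => by
    rw [lapC_ofReal, ← Complex.ofReal_mul, Complex.ofReal_im]
  eq := fun z hz => by
    rw [h z hz, LT_split hf hU hUC hz]
    congr 1
    ring

theorem G_bound {f : ℝ → ℝ} {C U : ℝ} (hf : Tame f C) :
    ∃ C' : ℝ, ∀ᶠ w : ℝ in 𝓝[>] 0, |((w : ℂ) * lapC (lowPart f U) w).re| ≤ C' := by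
  have h1 : ContinuousAt (fun w : ℂ => w * lapC (lowPart f U) w) 0 :=
    (differentiableAt_id.mul (lapC_differentiableAt (lowPart_meas hf.meas U) (w0 := -1)
      (fun w hw => lowPart_LInt hf hw) (by simp))).continuousAt
  have h2 : Tendsto (fun w : ℝ => (w : ℂ)) (𝓝[>] 0) (𝓝 0) := by
    have := Complex.continuous_ofReal.tendsto 0
    rw [Complex.ofReal_zero] at this
    exact tendsto_nhdsWithin_of_tendsto_nhds this
  have h3 : Tendsto (fun w : ℝ => |((w : ℂ) * lapC (lowPart f U) w).re|) (𝓝[>] 0)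
      (𝓝 |((0 : ℂ) * lapC (lowPart f U) 0).re|) :=
    ((Complex.continuous_re.tendsto _).comp (h1.tendsto.comp h2)).abs
  refine ⟨|((0 : ℂ) * lapC (lowPart f U) 0).re| + 1, ?_⟩
  filter_upwards [h3.eventually (gt_mem_nhds (show
    |((0 : ℂ) * lapC (lowPart f U) 0).re| < |((0 : ℂ) * lapC (lowPart f U) 0).re| + 1 by linarith))]
    with w hw
  exact hw.le

/-- The setting: `P` a positive function with `log P(e^u)` within `B` of `a(u)`. -/
structure BS (P : ℝ → ℝ) (F : ℂ → ℂ) (a : ℝ → ℝ) (G : ℂ → ℂ) (B : ℝ) : Prop where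
  pos : ∀ x, 0 < P x
  meas : Measurable fun u : ℝ => Real.log (P (Real.exp u))
  data : Data 1 a (fun w => F (1 + w)) G 2
  hloc : ∀ u, |a u| ≤ Real.exp (2 * u) + Real.exp u
  gb : ∃ C : ℝ, ∀ᶠ w : ℝ in 𝓝[>] 0, |(G w).re| ≤ C
  B0 : 0 ≤ B
  close : ∀ u, 0 < u → |Real.log (P (Real.exp u)) - a u| ≤ B

theorem bs_of {P : ℝ → ℝ} {F : ℂ → ℂ} {f : ℝ → ℝ} {C E : ℝ} (hP : ∀ x, 0 < P x)
    (hm : Measurable fun u : ℝ => Real.log (P (Real.exp u))) (hf : Tame f C)
    (hF : Differentiable ℂ F) (h : ∀ q : ℂ, 2 < q.re → F (1 + q) = Complex.exp (q * Pool.Agent.W334.BSD.LT f q))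
    (hE : ∀ u, 0 < u → |Real.log (P (Real.exp u)) + f u| ≤ E) :
    ∃ (a : ℝ → ℝ) (G : ℂ → ℂ) (B : ℝ), BS P F a G B := by
  have hC := hf.C_nonneg
  set U : ℝ := C + 1 with hU
  have hU0 : 0 < U := by linarith
  have hUC : ∀ u, U ≤ u → C * Real.exp u ≤ Real.exp (2 * u) := by
    intro u hu
    have h1 : C ≤ Real.exp u := by
      have := Real.add_one_le_exp u
      linarith
    rw [two_mul, Real.exp_add]
    exact mul_le_mul_of_nonneg_right h1 (Real.exp_pos u).le
  have hE0 : 0 ≤ E := (abs_nonneg _).trans (hE 1 one_pos)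
  refine ⟨hiPart f U, fun w => w * lapC (lowPart f U) w, E + C * Real.exp U, hP, hm,
    data_of hf hU0 hUC (hF.comp (differentiable_const 1 |>.add differentiable_id)) h, ?_,
    G_bound hf, by positivity, ?_⟩
  · intro u
    have := hiPart_bound hf hU0 hUC u
    have := Real.exp_pos u
    linarith
  · intro u hu
    have h1 := hE u hu
    unfold hiPart
    split_ifs with h2
    · rw [sub_neg_eq_add]
      have : 0 ≤ C * Real.exp U := by positivity
      linarith
    · push Not at h2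
      have h3 := hf.bound u hu
      have h4 : C * Real.exp u ≤ C * Real.exp U :=
        mul_le_mul_of_nonneg_left (Real.exp_le_exp.mpr h2.le) hC
      rw [sub_zero]
      have h5 := abs_sub (Real.log (P (Real.exp u)) + f u) (f u)
      rw [add_sub_cancel_right] at h5
      linarith

variable {P : ℝ → ℝ} {F : ℂ → ℂ} {a : ℝ → ℝ} {G : ℂ → ℂ} {B : ℝ}

theorem BS.ordZero (D : BS P F a G B) (hFd : Differentiable ℂ F) {r : ℕ}
    (hr : analyticOrderAt F 1 = r) : OrdZero (fun w => F (1 + w)) r := by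
  have hFa : AnalyticAt ℂ F 1 := hFd.analyticAt 1
  obtain ⟨g, hg, hg0, he⟩ := (hFa.analyticOrderAt_eq_natCast).mp hr
  refine ⟨fun w => g (1 + w), ?_, ?_, ?_⟩
  · refine AnalyticAt.fun_comp (g := g) (f := fun w : ℂ => 1 + w) ?_ ?_
    · simpa using hg
    · fun_prop
  · simpa using hg0
  · have h1 : Tendsto (fun w : ℂ => 1 + w) (𝓝 0) (𝓝 1) := by
      have : Continuous fun w : ℂ => 1 + w := by fun_prop
      simpa using this.tendsto 0
    filter_upwards [h1.eventually he] with w hw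
    rw [hw, add_sub_cancel_left, smul_eq_mul]

theorem BS.order_finite (D : BS P F a G B) (hFd : Differentiable ℂ F) :
    ∃ r : ℕ, analyticOrderAt F 1 = r := by
  have hne : analyticOrderAt F 1 ≠ ⊤ := by
    intro htop
    rw [analyticOrderAt_eq_top] at htop
    have h1 : AnalyticOnNhd ℂ F univ := hFd.differentiableOn.analyticOnNhd isOpen_univ
    have h2 := h1.eqOn_zero_of_preconnected_of_eventuallyEq_zero isPreconnected_univ
      (mem_univ (1 : ℂ)) htop
    have h4 := D.data.eq 3 (by norm_num)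
    rw [show F (1 + 3) = 0 from h2 (mem_univ _)] at h4
    exact Complex.exp_ne_zero _ h4.symm
  obtain ⟨r, hr⟩ := ENat.ne_top_iff_exists.mp hne
  exact ⟨r, hr.symm⟩

end Pool.Agent.W524.OS
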