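import Pool.Agent.W524.OS.Abs

/-! One-sided theorems for abstract Birch and Swinnerton-Dyer products. -/

set_option autoImplicit false

namespace Pool.Agent.W524.OS

open MeasureTheory Filter Topology Set
open Pool.Agent.W263.BSD

variable {P : ℝ → ℝ} {F : ℂ → ℂ} {a : ℝ → ℝ} {G : ℂ → ℂ} {B : ℝ}

theorem pk0 (u : ℝ) : pk 0 u = 1 := by unfold pk; simp

theorem BS.close' (D : BS P F a G B) {x : ℝ} (hx : 1 < x) :
    |Real.log (P x) - a (Real.log x)| ≤ B := by
  have := D.close (Real.log x) (Real.log_pos hx)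
  rwa [Real.exp_log (by linarith)] at this

/-- Unconditional lower bound for the upper exponent. -/
theorem BS.upper (D : BS P F a G B) (hFd : Differentiable ℂ F) {r : ℕ}
    (hr : analyticOrderAt F 1 = r) :
    ∃ M : ℝ, ∃ᶠ x : ℝ in atTop, r * Real.log (Real.log x) - M < Real.log (P x) := by
  by_contra hcon
  push Not at hcon
  refine D.data.limsup (k := 0) D.hloc D.gb (D.ordZero hFd hr) fun M => ?_
  have h1 := Real.tendsto_exp_atTop.eventually (hcon (M + B))
  filter_upwards [h1, eventually_gt_atTop 0] with u h2 hu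
  rw [Real.log_exp] at h2
  have h3 := (abs_le.mp (D.close u hu)).1
  rw [pk0, one_mul]
  linarith

theorem BS.phi_ne (hne : ∀ s : ℝ, 1 < s → F s ≠ 0) (w : ℝ) (hw : 0 < w) :
    (fun w : ℂ => F (1 + w)) w ≠ 0 := by
  have := hne (1 + w) (by linarith)
  push_cast at this
  exact this

/-- Lower exponent, if there are no real zeros to the right of `1`. -/
theorem BS.lower (D : BS P F a G B) (hFd : Differentiable ℂ F) {r : ℕ}
    (hr : analyticOrderAt F 1 = r) (hne : ∀ s : ℝ, 1 < s → F s ≠ 0) :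
    ∃ M : ℝ, ∃ᶠ x : ℝ in atTop, Real.log (P x) < r * Real.log (Real.log x) + M := by
  by_contra hcon
  push Not at hcon
  refine D.data.liminf (k := 0) D.hloc D.gb (D.ordZero hFd hr) (BS.phi_ne hne) fun M => ?_
  have h1 := Real.tendsto_exp_atTop.eventually (hcon (M + B))
  filter_upwards [h1, eventually_gt_atTop 0] with u h2 hu
  rw [Real.log_exp] at h2
  have h3 := (abs_le.mp (D.close u hu)).2
  rw [pk0, one_mul]
  linarith

/-- One-sided subexponential bounds imply that there are no zeros in `Re s > 1`. -/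
theorem BS.no_zeros (D : BS P F a G B)
    (h : ∀ ε : ℝ, 0 < ε → ∀ᶠ x : ℝ in atTop, Real.log (P x) ≤ x ^ ε) {s : ℂ} (hs : 1 < s.re) :
    F s ≠ 0 := by
  have hconv := D.data.conv_of_upper D.hloc fun ε hε => by
    have h1 := Real.tendsto_exp_atTop.eventually (h (ε / 2) (half_pos hε))
    have h2 : ∀ᶠ u : ℝ in atTop, 1 + B ≤ Real.exp (ε / 2 * u) := by
      have : Tendsto (fun u : ℝ => Real.exp (ε / 2 * u)) atTop atTop :=
        Real.tendsto_exp_atTop.comp (tendsto_id.const_mul_atTop (half_pos hε))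
      exact this.eventually_ge_atTop _
    filter_upwards [h1, h2, eventually_gt_atTop 0] with u h3 h4 hu
    have h5 := (abs_le.mp (D.close u hu)).1
    have h7 : Real.exp u ^ (ε / 2) = Real.exp (ε / 2 * u) := by
      rw [← Real.exp_mul]; congr 1; ring
    rw [h7] at h3
    have h8 : 1 ≤ Real.exp (ε / 2 * u) := Real.one_le_exp (by positivity)
    have hB := D.B0
    have h9 : a u ≤ (1 + B) * Real.exp (ε / 2 * u) := by
      have : B ≤ B * Real.exp (ε / 2 * u) := le_mul_of_one_le_right hB h8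
      linarith
    refine h9.trans ?_
    calc (1 + B) * Real.exp (ε / 2 * u) ≤ Real.exp (ε / 2 * u) * Real.exp (ε / 2 * u) :=
          mul_le_mul_of_nonneg_right h4 (Real.exp_pos _).le
      _ = Real.exp (ε * u) := by rw [← Real.exp_add]; congr 1; ring
  have h1 := D.data.nonvanish hconv (z := s - 1) (by simp; linarith)
  simp only [add_sub_cancel] at h1
  exact h1

/-- `K log log x` is subexponential. -/
theorem BS.no_zeros_of_loglog (D : BS P F a G B) {K : ℝ}
    (h : ∀ᶠ x : ℝ in atTop, Real.log (P x) ≤ K * Real.log (Real.log x)) {s : ℂ}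
    (hs : 1 < s.re) : F s ≠ 0 := by
  refine D.no_zeros (fun ε hε => ?_) hs
  have h1 := (isLittleO_log_rpow_atTop hε).bound (show (0 : ℝ) < 1 / (|K| + 1) by positivity)
  have h2 : ∀ᶠ x : ℝ in atTop, Real.exp 1 ≤ x := eventually_ge_atTop _
  filter_upwards [h, h1, h2] with x h3 h4 h5
  have hx : 0 < x := lt_of_lt_of_le (Real.exp_pos 1) h5
  have hl : 1 ≤ Real.log x := by
    rw [Real.le_log_iff_exp_le hx]; exact h5
  rw [Real.norm_of_nonneg (by linarith), Real.norm_of_nonneg (by positivity)] at h4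
  have hll : 0 ≤ Real.log (Real.log x) := Real.log_nonneg hl
  have hle : Real.log (Real.log x) ≤ Real.log x :=
    (Real.log_le_sub_one_of_pos (by linarith)).trans (by linarith)
  refine h3.trans ?_
  calc K * Real.log (Real.log x) ≤ |K| * Real.log x :=
        mul_le_mul (le_abs_self K) hle hll (abs_nonneg _)
    _ ≤ |K| * (1 / (|K| + 1) * x ^ ε) := by gcongr
    _ = (|K| / (|K| + 1)) * x ^ ε := by ring
    _ ≤ 1 * x ^ ε := by
        gcongr
        rw [div_le_one (by positivity)]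
        linarith
    _ = _ := one_mul _

/-- a power of `log x` as a bound for `P` -/
theorem BS.loglog_of_pow (D : BS P F a G B) {K C : ℝ}
    (h : ∀ᶠ x : ℝ in atTop, P x ≤ C * (Real.log x) ^ K) :
    ∀ᶠ x : ℝ in atTop, Real.log (P x) ≤ (|Real.log C| + K) * Real.log (Real.log x) := by
  filter_upwards [h, eventually_ge_atTop (Real.exp (Real.exp 1))] with x h1 h2
  have hx0 : 0 < x := lt_of_lt_of_le (Real.exp_pos _) h2
  have hl : Real.exp 1 ≤ Real.log x := by rwa [Real.le_log_iff_exp_le hx0]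
  have hl0 : 0 < Real.log x := lt_of_lt_of_le (Real.exp_pos 1) hl
  have hll : 1 ≤ Real.log (Real.log x) := by rwa [Real.le_log_iff_exp_le hl0]
  have hC : 0 < C := by
    by_contra hneg
    push Not at hneg
    have := mul_nonpos_of_nonpos_of_nonneg hneg (Real.rpow_pos_of_pos hl0 K).le
    linarith [D.pos x]
  have h3 := Real.log_le_log (D.pos _) h1
  rw [Real.log_mul hC.ne' (Real.rpow_pos_of_pos hl0 K).ne', Real.log_rpow hl0] at h3
  have h4 := le_abs_self (Real.log C)
  nlinarith [abs_nonneg (Real.log C)]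

/-- exact order in terms of `u = log x` implies exact order of `P` -/
theorem BS.order_transfer (D : BS P F a G B) {r : ℕ} {M : ℝ}
    (h : ∀ u, 0 < u → |a u - r * ell u| ≤ M) :
    ∃ c C : ℝ, 0 < c ∧ ∀ᶠ x : ℝ in atTop, c * (Real.log x) ^ r ≤ P x ∧
      P x ≤ C * (Real.log x) ^ r := by
  refine ⟨Real.exp (-(M + B + r)), Real.exp (M + B + r), Real.exp_pos _, ?_⟩
  filter_upwards [eventually_ge_atTop (Real.exp 2)] with x hx
  have hx0 : 0 < x := lt_of_lt_of_le (Real.exp_pos 2) hx
  set u := Real.log x with hu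
  have hu2 : 2 ≤ u := by rw [hu, Real.le_log_iff_exp_le hx0]; exact hx
  have hu0 : 0 < u := by linarith
  have hxu : x = Real.exp u := by rw [hu, Real.exp_log hx0]
  have h1 := abs_le.mp (D.close u hu0)
  have h2 := abs_le.mp (h u hu0)
  rw [← hxu] at h1
  have h3 := log_le_ell hu0
  have h4 := ell_le hu2
  have h3' : (r : ℝ) * Real.log u ≤ r * ell u := mul_le_mul_of_nonneg_left h3 (by positivity)
  have h4' : (r : ℝ) * ell u ≤ r * (Real.log u + 1) := mul_le_mul_of_nonneg_left h4 (by positivity)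
  have h5 : P x = Real.exp (Real.log (P x)) := (Real.exp_log (D.pos x)).symm
  have h6 : u ^ r = Real.exp (r * Real.log u) := by
    rw [mul_comm, Real.exp_mul, Real.exp_log hu0, Real.rpow_natCast]
  rw [h5, h6, ← Real.exp_add, ← Real.exp_add, Real.exp_le_exp, Real.exp_le_exp]
  constructor <;> linarith

/-- doubling of `P` in terms of `u` -/
theorem BS.doubling_transfer (D : BS P F a G B) {K : ℝ}
    (h : ∀ᶠ x : ℝ in atTop, ∀ y, x ≤ y → y ≤ x ^ 2 → P y ≤ K * P x) :
    ∃ K' u0 : ℝ, 0 ≤ K' ∧ 1 ≤ u0 ∧ ∀ u v, u0 ≤ u → u ≤ v → v ≤ 2 * u → a v ≤ a u + K' := by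
  obtain ⟨X, hX⟩ := eventually_atTop.mp h
  set X' := max X (Real.exp 1) with hX'
  have hX0 : 0 < X' := lt_of_lt_of_le (Real.exp_pos 1) (le_max_right _ _)
  have hB0 := D.B0
  refine ⟨|Real.log K| + 2 * B, Real.log X', by positivity, ?_, ?_⟩
  · rw [Real.le_log_iff_exp_le hX0]; exact le_max_right _ _
  intro u v h1 h2 h3
  have hu1 : 1 ≤ u := by
    have : 1 ≤ Real.log X' := by rw [Real.le_log_iff_exp_le hX0]; exact le_max_right _ _
    linarith
  have h4 : X' ≤ Real.exp u := by rwa [← Real.log_le_iff_le_exp hX0]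
  have h5 := hX (Real.exp u) ((le_max_left _ _).trans h4) (Real.exp v) (Real.exp_le_exp.mpr h2)
    (by rw [← Real.exp_nat_mul]; exact Real.exp_le_exp.mpr (by push_cast; linarith))
  have hKpos : 0 < K := by
    by_contra hneg
    push Not at hneg
    have := mul_nonpos_of_nonpos_of_nonneg hneg (D.pos (Real.exp u)).le
    linarith [D.pos (Real.exp v)]
  have h6 := Real.log_le_log (D.pos _) h5
  rw [Real.log_mul hKpos.ne' (D.pos _).ne'] at h6
  have h7 := (abs_le.mp (D.close u (by linarith))).2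
  have h8 := (abs_le.mp (D.close v (by linarith))).1
  have := le_abs_self (Real.log K)
  linarith

theorem BS.doubling_transfer_lower (D : BS P F a G B) {K : ℝ}
    (h : ∀ᶠ x : ℝ in atTop, ∀ y, x ≤ y → y ≤ x ^ 2 → P x ≤ K * P y) :
    ∃ K' u0 : ℝ, 0 ≤ K' ∧ 1 ≤ u0 ∧ ∀ u v, u0 ≤ u → u ≤ v → v ≤ 2 * u → a u - K' ≤ a v := by
  obtain ⟨X, hX⟩ := eventually_atTop.mp h
  set X' := max X (Real.exp 1) with hX'
  have hX0 : 0 < X' := lt_of_lt_of_le (Real.exp_pos 1) (le_max_right _ _)
  have hB0 := D.B0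
  refine ⟨|Real.log K| + 2 * B, Real.log X', by positivity, ?_, ?_⟩
  · rw [Real.le_log_iff_exp_le hX0]; exact le_max_right _ _
  intro u v h1 h2 h3
  have hu1 : 1 ≤ u := by
    have : 1 ≤ Real.log X' := by rw [Real.le_log_iff_exp_le hX0]; exact le_max_right _ _
    linarith
  have h4 : X' ≤ Real.exp u := by rwa [← Real.log_le_iff_le_exp hX0]
  have h5 := hX (Real.exp u) ((le_max_left _ _).trans h4) (Real.exp v) (Real.exp_le_exp.mpr h2)
    (by rw [← Real.exp_nat_mul]; exact Real.exp_le_exp.mpr (by push_cast; linarith))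
  have hKpos : 0 < K := by
    by_contra hneg
    push Not at hneg
    have := mul_nonpos_of_nonpos_of_nonneg hneg (D.pos (Real.exp v)).le
    linarith [D.pos (Real.exp u)]
  have h6 := Real.log_le_log (D.pos _) h5
  rw [Real.log_mul hKpos.ne' (D.pos _).ne'] at h6
  have h7 := (abs_le.mp (D.close u (by linarith))).1
  have h8 := (abs_le.mp (D.close v (by linarith))).2
  have := le_abs_self (Real.log K)
  linarith

theorem BS.order_of_upper_doubling (D : BS P F a G B) (hFd : Differentiable ℂ F) {r : ℕ}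
    (hr : analyticOrderAt F 1 = r) {K : ℝ}
    (h : ∀ᶠ x : ℝ in atTop, ∀ y, x ≤ y → y ≤ x ^ 2 → P y ≤ K * P x) :
    ∃ c C : ℝ, 0 < c ∧ ∀ᶠ x : ℝ in atTop, c * (Real.log x) ^ r ≤ P x ∧
      P x ≤ C * (Real.log x) ^ r := by
  obtain ⟨K', u0, hK', hu0, h1⟩ := D.doubling_transfer h
  obtain ⟨_, M, hM⟩ := D.data.order_of_upper D.hloc D.gb (D.ordZero hFd hr) hK' hu0 h1
  exact D.order_transfer hM

theorem BS.order_of_lower_doubling (D : BS P F a G B) (hFd : Differentiable ℂ F) {r : ℕ}
    (hr : analyticOrderAt F 1 = r) (hne : ∀ s : ℝ, 1 < s → F s ≠ 0) {K : ℝ}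
    (h : ∀ᶠ x : ℝ in atTop, ∀ y, x ≤ y → y ≤ x ^ 2 → P x ≤ K * P y) :
    ∃ c C : ℝ, 0 < c ∧ ∀ᶠ x : ℝ in atTop, c * (Real.log x) ^ r ≤ P x ∧
      P x ≤ C * (Real.log x) ^ r := by
  obtain ⟨K', u0, hK', hu0, h1⟩ := D.doubling_transfer_lower h
  obtain ⟨_, M, hM⟩ := D.data.order_of_lower D.hloc D.gb
    (D.ordZero hFd hr) (BS.phi_ne hne) hK' hu0 h1
  exact D.order_transfer hM

/-- the exact order implies that there are no zeros -/
theorem BS.no_zeros_of_order (D : BS P F a G B) {r : ℕ} {C : ℝ}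
    (h : ∀ᶠ x : ℝ in atTop, P x ≤ C * (Real.log x) ^ r) {s : ℂ} (hs : 1 < s.re) :
    F s ≠ 0 := by
  refine D.no_zeros_of_loglog (D.loglog_of_pow (K := r) (C := C) ?_) hs
  filter_upwards [h] with x hx
  rwa [Real.rpow_natCast]

/-- **The one-sided criterion for the exact order of magnitude.** -/
theorem BS.order_tfae (D : BS P F a G B) (hFd : Differentiable ℂ F) {r : ℕ}
    (hr : analyticOrderAt F 1 = r) :
    List.TFAE [
      ∃ c C : ℝ, 0 < c ∧ ∀ᶠ x : ℝ in atTop, c * (Real.log x) ^ r ≤ P x ∧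
        P x ≤ C * (Real.log x) ^ r,
      ∃ K : ℝ, ∀ᶠ x : ℝ in atTop, ∀ y, x ≤ y → y ≤ x ^ 2 → P y ≤ K * P x,
      (∀ s : ℝ, 1 < s → F s ≠ 0) ∧ ∃ K : ℝ, ∀ᶠ x : ℝ in atTop, ∀ y, x ≤ y → y ≤ x ^ 2 →
        P x ≤ K * P y] := by
  tfae_have 1 → 2 := by
    rintro ⟨c, C, hc, h⟩
    obtain ⟨X, hX⟩ := eventually_atTop.mp h
    refine ⟨|C| * 2 ^ r / c, ?_⟩
    filter_upwards [eventually_ge_atTop (max X (Real.exp 1))] with x hx y h1 h2
    have hx1 : Real.exp 1 ≤ x := (le_max_right _ _).trans hx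
    have hx0 : 0 < x := lt_of_lt_of_le (Real.exp_pos 1) hx1
    have hl : 1 ≤ Real.log x := by rwa [Real.le_log_iff_exp_le hx0]
    have e1 := (hX x ((le_max_left _ _).trans hx)).1
    have e2 := (hX y (((le_max_left _ _).trans hx).trans h1)).2
    have hly : Real.log y ≤ 2 * Real.log x := by
      have := Real.log_le_log (by linarith) h2
      rwa [Real.log_pow] at this
    have hly0 : 0 ≤ Real.log y := Real.log_nonneg (by
      have := Real.one_le_exp (zero_le_one : (0 : ℝ) ≤ 1)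
      linarith)
    calc P y ≤ C * Real.log y ^ r := e2
      _ ≤ |C| * (2 * Real.log x) ^ r := by
          refine mul_le_mul (le_abs_self C) (pow_le_pow_left₀ hly0 hly r) (by positivity)
            (abs_nonneg _)
      _ = |C| * 2 ^ r / c * (c * Real.log x ^ r) := by rw [mul_pow]; field_simp
      _ ≤ |C| * 2 ^ r / c * P x := by gcongr
  tfae_have 2 → 1 := by
    rintro ⟨K, h⟩
    exact D.order_of_upper_doubling hFd hr h
  tfae_have 1 → 3 := by
    rintro ⟨c, C, hc, h⟩
    refine ⟨fun s hs => D.no_zeros_of_order (h.mono fun x hx => hx.2) (by simpa using hs),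
      |C| / c, ?_⟩
    obtain ⟨X, hX⟩ := eventually_atTop.mp h
    filter_upwards [eventually_ge_atTop (max X (Real.exp 1))] with x hx y h1 h2
    have hx1 : Real.exp 1 ≤ x := (le_max_right _ _).trans hx
    have hx0 : 0 < x := lt_of_lt_of_le (Real.exp_pos 1) hx1
    have hl : 1 ≤ Real.log x := by rwa [Real.le_log_iff_exp_le hx0]
    have e1 := (hX x ((le_max_left _ _).trans hx)).2
    have e2 := (hX y (((le_max_left _ _).trans hx).trans h1)).1
    have hly : Real.log x ≤ Real.log y := Real.log_le_log hx0 h1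
    calc P x ≤ C * Real.log x ^ r := e1
      _ ≤ |C| * Real.log y ^ r := by
          refine mul_le_mul (le_abs_self C) (pow_le_pow_left₀ (by linarith) hly r) (by positivity)
            (abs_nonneg _)
      _ = |C| / c * (c * Real.log y ^ r) := by field_simp
      _ ≤ |C| / c * P y := by gcongr
  tfae_have 3 → 1 := by
    rintro ⟨hne, K, h⟩
    exact D.order_of_lower_doubling hFd hr hne h
  tfae_finish

end Pool.Agent.W524.OS
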