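import Pool.Agent.W524.OS.Fin

/-! The logarithmic mean of `log P`. -/

set_option autoImplicit false

namespace Pool.Agent.W524.OS

open MeasureTheory Filter Topology Set
open Pool.Agent.W263.BSD

variable {P : ℝ → ℝ} {F : ℂ → ℂ} {a : ℝ → ℝ} {G : ℂ → ℂ} {B : ℝ}

/-- The logarithmic mean. -/
noncomputable def logMean (P : ℝ → ℝ) (x : ℝ) : ℝ :=
  (∫ t in Ioc 1 x, Real.log (P t) / t) / Real.log x

theorem integral_log_change (g : ℝ → ℝ) {x : ℝ} (hx : 0 < x) :
    ∫ t in Ioc 1 x, g t / t = ∫ u in Ioc 0 (Real.log x), g (Real.exp u) := by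
  have h1 : Real.exp '' Ioc 0 (Real.log x) = Ioc 1 x := by
    ext y
    simp only [mem_image, mem_Ioc]
    constructor
    · rintro ⟨u, ⟨h1, h2⟩, rfl⟩
      refine ⟨?_, ?_⟩
      · rw [← Real.exp_zero]; exact Real.exp_lt_exp.mpr h1
      · rwa [← Real.le_log_iff_exp_le hx]
    · rintro ⟨h1, h2⟩
      refine ⟨Real.log y, ⟨Real.log_pos h1, Real.log_le_log (by linarith) h2⟩,
        Real.exp_log (by linarith)⟩
  rw [← h1, integral_image_eq_integral_abs_deriv_smul measurableSet_Ioc
    (fun u _ => (Real.hasDerivAt_exp u).hasDerivWithinAt) Real.exp_injective.injOn]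
  refine setIntegral_congr_fun measurableSet_Ioc fun u _ => ?_
  simp only [Real.abs_exp, smul_eq_mul]
  have := (Real.exp_pos u).ne'
  field_simp

theorem BS.int_a (D : BS P F a G B) (U : ℝ) : IntegrableOn a (Ioc 0 U) := by
  refine Measure.integrableOn_of_bounded (M := Real.exp (2 * U) + Real.exp U) ?_ ?_ ?_
  · simp
  · exact D.data.meas.aestronglyMeasurable
  · rw [ae_restrict_iff' measurableSet_Ioc]
    refine Eventually.of_forall fun u hu => ?_
    refine (D.hloc u).trans ?_
    have h1 : Real.exp (2 * u) ≤ Real.exp (2 * U) := Real.exp_le_exp.mpr (by linarith [hu.2])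
    have h2 : Real.exp u ≤ Real.exp U := Real.exp_le_exp.mpr hu.2
    linarith

theorem BS.int_g (D : BS P F a G B) (U : ℝ) :
    IntegrableOn (fun u => Real.log (P (Real.exp u))) (Ioc 0 U) := by
  refine Measure.integrableOn_of_bounded (M := Real.exp (2 * U) + Real.exp U + B) ?_ ?_ ?_
  · simp
  · exact D.meas.aestronglyMeasurable
  · rw [ae_restrict_iff' measurableSet_Ioc]
    refine Eventually.of_forall fun u hu => ?_
    have h0 := D.close u hu.1
    have h3 := D.hloc u
    have h1 : Real.exp (2 * u) ≤ Real.exp (2 * U) := Real.exp_le_exp.mpr (by linarith [hu.2])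
    have h2 : Real.exp u ≤ Real.exp U := Real.exp_le_exp.mpr hu.2
    rw [Real.norm_eq_abs]
    have h4 : |Real.log (P (Real.exp u))| ≤ |Real.log (P (Real.exp u)) - a u| + |a u| := by
      have := abs_add_le (Real.log (P (Real.exp u)) - a u) (a u)
      rwa [sub_add_cancel] at this
    linarith

theorem BS.int_close (D : BS P F a G B) {U : ℝ} (hU : 0 ≤ U) :
    |(∫ u in Ioc 0 U, Real.log (P (Real.exp u))) - ∫ u in Ioc 0 U, a u| ≤ B * U := by
  rw [← integral_sub (D.int_g U) (D.int_a U), ← Real.norm_eq_abs]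
  have h := norm_setIntegral_le_of_norm_le_const (μ := volume) (s := Ioc 0 U)
    (f := fun u => Real.log (P (Real.exp u)) - a u) (C := B) (by simp)
    (fun u hu => D.close u hu.1)
  refine h.trans (le_of_eq ?_)
  simp [Measure.real, hU]

/-- **The log-mean of `log P`.** A one-sided bound forces its growth. -/
theorem BS.mean (D : BS P F a G B) (hFd : Differentiable ℂ F) {r : ℕ}
    (hr : analyticOrderAt F 1 = r) {K : ℝ}
    (h : ∀ᶠ x : ℝ in atTop, Real.log (P x) ≤ K * Real.log (Real.log x)) :
    Tendsto (fun x : ℝ => logMean P x / Real.log (Real.log x)) atTop (𝓝 r) := by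
  have h1 : ∀ᶠ u in atTop, a u ≤ (|K| + B) * (pk 0 u * Real.log u) := by
    filter_upwards [Real.tendsto_exp_atTop.eventually h, eventually_ge_atTop (Real.exp 1)]
      with u h2 hu
    have hu0 : 0 < u := lt_of_lt_of_le (Real.exp_pos 1) hu
    have hl : 1 ≤ Real.log u := by rwa [Real.le_log_iff_exp_le hu0]
    rw [Real.log_exp] at h2
    have h3 := (abs_le.mp (D.close u hu0)).1
    rw [pk0, one_mul]
    have h4 : K * Real.log u ≤ |K| * Real.log u :=
      mul_le_mul_of_nonneg_right (le_abs_self K) (by linarith)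
    have h5 : B ≤ B * Real.log u := le_mul_of_one_le_right D.B0 hl
    linarith
  have h2 := D.data.mean (k := 0) D.hloc D.gb (D.ordZero hFd hr) h1
  have h3 : Tendsto (fun U : ℝ => (∫ u in Ioc 0 U, a u) / (U * Real.log U)) atTop (𝓝 r) := by
    refine h2.congr fun U => ?_
    simp
  have h4 : Tendsto (fun U : ℝ => (∫ u in Ioc 0 U, Real.log (P (Real.exp u))) / (U * Real.log U))
      atTop (𝓝 r) := by
    have h5 : Tendsto (fun U : ℝ => B / Real.log U) atTop (𝓝 0) :=
      Tendsto.const_div_atTop Real.tendsto_log_atTop B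
    have h6 : Tendsto (fun U : ℝ => ((∫ u in Ioc 0 U, Real.log (P (Real.exp u))) -
        ∫ u in Ioc 0 U, a u) / (U * Real.log U)) atTop (𝓝 0) := by
      refine squeeze_zero_norm' ?_ h5
      filter_upwards [eventually_gt_atTop 1] with U hU
      have hl : 0 < Real.log U := Real.log_pos hU
      have hU0 : 0 < U := by linarith
      rw [norm_div, Real.norm_eq_abs, Real.norm_of_nonneg (mul_pos hU0 hl).le,
        div_le_div_iff₀ (mul_pos hU0 hl) hl]
      have := D.int_close hU0.le
      calc _ ≤ B * U * Real.log U := mul_le_mul_of_nonneg_right this hl.le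
        _ = _ := by ring
    have h7 := h6.add h3
    rw [zero_add] at h7
    refine h7.congr fun U => ?_
    rw [sub_div, sub_add_cancel]
  have h5 := h4.comp Real.tendsto_log_atTop
  refine h5.congr' ?_
  filter_upwards [eventually_gt_atTop 1] with x hx
  simp only [Function.comp_apply]
  unfold logMean
  rw [integral_log_change (fun t => Real.log (P t)) (by linarith), div_div]

end Pool.Agent.W524.OS
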