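import Pool.Agent.W524.OS.Mean

/-! Elliptic curves over number fields. -/

set_option autoImplicit false

namespace Pool.Agent.W524.OS.NF

open MeasureTheory Filter Topology Set NumberField IsDedekindDomain
open Pool.Agent.W334.BSD.NF

noncomputable section

variable {K : Type} [Field K] [NumberField K]

/-- the product over the good primes of norm at most `x` -/
def prd (a b : 𝓞 K) (x : ℝ) : ℝ :=
  ∏ᶠ v ∈ {v : HeightOneSpectrum (𝓞 K) | Gd a b v ∧ (Ideal.absNorm v.asIdeal : ℝ) ≤ x},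
    ((npt a b v : ℝ) + 1) / Ideal.absNorm v.asIdeal

theorem finite_le (x : ℝ) :
    {v : HeightOneSpectrum (𝓞 K) | (Ideal.absNorm v.asIdeal : ℝ) ≤ x}.Finite := by
  have h1 : {I : Ideal (𝓞 K) | Ideal.absNorm I ≤ ⌊x⌋₊}.Finite := Ideal.finite_setOf_absNorm_le _
  refine Finite.of_finite_image (f := fun v : HeightOneSpectrum (𝓞 K) => v.asIdeal)
    (h1.subset ?_) ?_
  · rintro _ ⟨v, hv, rfl⟩
    exact Nat.le_floor hv
  · intro v _ w _ h
    exact HeightOneSpectrum.ext h

theorem finite_good (a b : 𝓞 K) (x : ℝ) :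
    {v : HeightOneSpectrum (𝓞 K) | Gd a b v ∧ (Ideal.absNorm v.asIdeal : ℝ) ≤ x}.Finite :=
  (finite_le x).subset fun _ hv => hv.2

theorem factor_pos (a b : 𝓞 K) (v : HeightOneSpectrum (𝓞 K)) :
    0 < ((npt a b v : ℝ) + 1) / Ideal.absNorm v.asIdeal := by
  have h1 : 2 ≤ Ideal.absNorm v.asIdeal := H921R2.TatePole.two_le_nm v
  have h2 : (0 : ℝ) < Ideal.absNorm v.asIdeal := by exact_mod_cast (by omega : 0 < Ideal.absNorm v.asIdeal)
  positivity

theorem prd_pos (a b : 𝓞 K) (x : ℝ) : 0 < prd a b x := by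
  unfold prd
  rw [finprod_mem_eq_finite_toFinset_prod _ (finite_good a b x)]
  exact Finset.prod_pos fun v _ => factor_pos a b v

theorem log_prd (a b : 𝓞 K) (u : ℝ) : Real.log (prd a b (Real.exp u)) = lgP a b u := by
  classical
  unfold prd lgP
  rw [finprod_mem_eq_finite_toFinset_prod _ (finite_good a b _),
    Real.log_prod (fun v _ => (factor_pos a b v).ne')]
  rw [tsum_eq_sum (s := (finite_good a b (Real.exp u)).toFinset)]
  · refine Finset.sum_congr rfl fun v hv => ?_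
    have hv' : Gd a b v ∧ (Ideal.absNorm v.asIdeal : ℝ) ≤ Real.exp u := by simpa using hv
    exact (if_pos hv').symm
  · intro v hv
    have hv' : ¬ (Gd a b v ∧ (Ideal.absNorm v.asIdeal : ℝ) ≤ Real.exp u) := by simpa using hv
    exact if_neg hv'

theorem bs (a b : 𝓞 K) {F : ℂ → ℂ} (hF : Differentiable ℂ F)
    (h : ∀ s : ℂ, 2 < s.re → HasProd (fac a b s) (F s)) :
    ∃ (α : ℝ → ℝ) (G : ℂ → ℂ) (B : ℝ), BS (prd a b) F α G B := by
  obtain ⟨C, hC⟩ := tame_bK a b
  obtain ⟨E, hE⟩ := lgP_close a b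
  refine bs_of (prd_pos a b) ?_ hC hF (fun q hq => ?_) (E := E) fun u hu => ?_
  · simp only [log_prd]
    exact lgP_meas a b
  · exact (h (1 + q) (by simp; linarith)).unique (Lseries a b (by linarith))
  · rw [log_prd]
    exact hE u hu

end

end Pool.Agent.W524.OS.NF
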